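import Pool.Agent.Lib.MP_f3871b_nt.R.Main

/-! Signs in the power product expansion of every power of the partition generating function. -/

namespace Pool.Agent.Results.MP_f3871b_nt.AllPowers

open scoped PowerSeries.WithPiTopology

/-- `n` is a sequence of integers with `(∑ p(m) x^m) ^ r = ∏_{k ≥ 1} (1 + n_k x^k)` in the ring of
formal power series over the integers (the infinite product converging coefficientwise); `p(m)` is
the number of partitions of `m`. -/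
def IsExpansion (r : ℕ) (n : ℕ → ℤ) : Prop :=
  HasProd
    (fun k : ℕ => (1 + PowerSeries.C (n (k + 1)) * PowerSeries.X ^ (k + 1) : PowerSeries ℤ))
    ((PowerSeries.mk fun m => (Fintype.card (Nat.Partition m) : ℤ)) ^ r)

theorem result (r : ℕ) (hr : 1 ≤ r) :
    (∃ n : ℕ → ℤ, IsExpansion r n) ∧
    ∀ n : ℕ → ℤ, IsExpansion r n → ∀ k : ℕ, 1 ≤ k →
      (0 < n k ↔ k ≤ 2 ∨ (r = 1 ∧ (Odd k ∨ k = 4 ∨ 8 ∣ k)) ∨ ((r = 2 ∨ r = 3) ∧ 4 ∣ k) ∨
        (4 ≤ r ∧ Even k ∧ ¬ (r = 4 ∧ k = 6))) ∧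
      (n k = 0 ↔ (r = 1 ∧ k = 6) ∨ (r = 2 ∧ k = 3)) := by
  refine ⟨Pool.Agent.Lib.MP_f3871b_nt.R.exists_expansionF _
    (Pool.Agent.Lib.MP_f3871b_nt.R.constantCoeff_partGF_pow r), fun n hn k hk => ?_⟩
  have hR := Pool.Agent.Lib.MP_f3871b_nt.R.rec_of_sum
    (Pool.Agent.Lib.MP_f3871b_nt.R.recurrence_pow hn)
  rw [Nat.odd_iff, Nat.even_iff]
  rcases (by omega : r = 1 ∨ r = 2 ∨ r = 3 ∨ 4 ≤ r) with rfl | rfl | rfl | h4
  · unfold IsExpansion at hn
    rw [pow_one] at hn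
    have := Pool.Agent.Lib.MP_f3871b_nt.R.signs_one
      (Pool.Agent.Lib.MP_f3871b_nt.recurrence hn) k hk
    omega
  · have := Pool.Agent.Lib.MP_f3871b_nt.R.signs_two hR k hk
    omega
  · have := Pool.Agent.Lib.MP_f3871b_nt.R.signs_three hR k hk
    omega
  · have := Pool.Agent.Lib.MP_f3871b_nt.R.signs_four hR (by exact_mod_cast h4) k hk
    omega

/-- Q1 as posed: the case `r = 1`. -/
theorem posed (n : ℕ → ℤ) (hn : IsExpansion 1 n) (k : ℕ) (hk : 1 ≤ k) :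
    n (8 * k + 2) < 0 ∧ n (8 * k + 4) < 0 ∧ n (8 * k + 6) < 0 ∧ 0 < n (8 * k) := by
  have h1 := (result 1 le_rfl).2 n hn (8 * k + 2) (by omega)
  have h2 := (result 1 le_rfl).2 n hn (8 * k + 4) (by omega)
  have h3 := (result 1 le_rfl).2 n hn (8 * k + 6) (by omega)
  have h4 := (result 1 le_rfl).2 n hn (8 * k) (by omega)
  rw [Nat.odd_iff, Nat.even_iff] at h1 h2 h3 h4
  omega

end Pool.Agent.Results.MP_f3871b_nt.AllPowers
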